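import Mathlib
import Pool.Agent.K3h14.CM.PolyRed

set_option autoImplicit false

/-!
# MP_439cda_lc: COL-2PM is `NP`-complete
-/

namespace Pool.Agent.Results.MP_439cda_lc.NPComplete

open Pool.Agent.NPC Pool.Agent.K3h14.CM

/-- COL-2PM is `NP`-complete (under polynomial-time many-one reductions). -/
theorem result : InNPP COL2PM ∧ NPHardP COL2PM := npComplete

end Pool.Agent.Results.MP_439cda_lc.NPComplete
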